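import Pool.Agent.H677_SC.Basic

set_option autoImplicit false

open Finset

namespace Pool.Agent.Results.MP_cec948_nt.FalseAtThirteen

/-- The generalised binomial coefficient `a (a - 1) ⋯ (a - k + 1) / k!`. -/
def gb (a : ℚ) (k : ℕ) : ℚ := (∏ i ∈ range k, (a - i)) / (k.factorial : ℚ)

/-- `S_p`. -/
def S (p : ℕ) : ℚ := ∑ k ∈ range p, gb (-1 / 4) k * gb (-1 / 2) k / (-3) ^ k

/-- `T_p`. -/
def T (p : ℕ) : ℚ := ∑ k ∈ range p, gb (-1 / 4) k * gb (-1 / 2) k / 81 ^ k

/-- `u ≡ v` modulo `p ^ m` for rationals with denominator prime to `p`: the difference is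
`p ^ m` times a rational number whose denominator is not divisible by `p`. -/
def Congr (p m : ℕ) (u v : ℚ) : Prop := ∃ r : ℚ, ¬ p ∣ r.den ∧ u - v = (p : ℚ) ^ m * r

/-- The statements (a) and (b) of Q1 for the prime `p`. -/
def Assertion (p : ℕ) : Prop :=
  (p % 4 = 1 → ∃ x y : ℤ, Odd x ∧ (p : ℤ) = x ^ 2 + y ^ 2 ∧
    Congr p 2 (S p) ((-1) ^ ((p - 1) / 4) * T p) ∧
    Congr p 2 ((-1) ^ ((p - 1) / 4) * T p) (2 * x - p / (2 * x))) ∧
  (p % 4 = 3 → Congr p 1 (S p) (T p) ∧ Congr p 1 (T p) 0)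

/-- Q1 as posed is false: (a) fails for `p = 13`. -/
theorem result : ¬ ∀ p : ℕ, p.Prime → 5 ≤ p → Assertion p := by
  intro h
  obtain ⟨x, y, -, -, ⟨r, hr, he⟩, -⟩ := (h 13 (by norm_num) (by norm_num)).1 (by norm_num)
  have hS : S 13 + T 13 = 1882681108029279844754431976686023883603 / 957962995513794442243721007948487458816 := by
    decide +kernel
  have key := Pool.Agent.H677_SC.dvd_of_den (p := 13) (m := 2) (by norm_num) hr
    (d := 957962995513794442243721007948487458816)
    (N := 1882681108029279844754431976686023883603) (by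
      have h2 : S 13 - (-1) ^ ((13 - 1) / 4) * T 13 = S 13 + T 13 := by norm_num
      rw [← he, h2, hS]
      norm_num)
  revert key
  norm_num

end Pool.Agent.Results.MP_cec948_nt.FalseAtThirteen
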